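import Pool.Agent.W788.NW.Stm

/-! # Project NW: the spine sites are at most `Δ` on average -/

namespace Pool.Agent.W597.NWC

open Finset Pool.Agent.W788.NV Pool.Agent.W788.NW

/-- moves of the spine site -/
def mv {V : Type} [DecidableEq V] {q : ℕ} : ((V × Fin q) ⊕ (V × V)) ⊕ (V × V) → V → V
  | .inl _, v => v
  | .inr w, v => if w.1 = v then w.2 else v

theorem sm_fst {V : Type} [DecidableEq V] {q : ℕ} (a b : Fin q)
    (e : ((V × Fin q) ⊕ (V × V)) ⊕ (V × V)) (p : V × Mp V q) :
    (sm a b e p).1 = mv e p.1 := by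
  rcases e with e | w
  · unfold sm mv
    dsimp only
    split_ifs <;> rfl
  · unfold sm mv
    dsimp only
    split_ifs <;> rfl

theorem drift {V : Type} [Fintype V] [DecidableEq V] (G : SimpleGraph V) (q : ℕ) (θ : ℝ)
    (hd : ∀ v, 1 ≤ dg G v) (f : V → ℝ) :
    ∑ w, (dg G w : ℝ) * gf (srate G q θ) (mv (V := V) (q := q)) f w = 0 := by
  classical
  have h1 : ∀ w, (dg G w : ℝ) * gf (srate G q θ) (mv (V := V) (q := q)) f w =
      ∑ y, if G.Adj w y then (1 - θ) * (f y - f w) else 0 := by
    intro w
    have hw : (dg G w : ℝ) ≠ 0 := by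
      have := hd w
      positivity
    unfold gf
    rw [Fintype.sum_sum_type]
    have h2 : ∑ e : (V × Fin q) ⊕ (V × V), srate G q θ (Sum.inl e) *
        (f (mv (V := V) (q := q) (Sum.inl e) w) - f w) = 0 := by
      refine Finset.sum_eq_zero fun e _ => ?_
      simp [mv]
    rw [h2, zero_add, Fintype.sum_prod_type, Finset.sum_eq_single w]
    · rw [Finset.mul_sum]
      refine Finset.sum_congr rfl fun y _ => ?_
      simp only [mv, if_true, srate, mrate]
      split_ifs with hA
      · field_simp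
      · simp
    · intro u _ hu
      refine Finset.sum_eq_zero fun y _ => ?_
      simp [mv, hu]
    · intro h
      exact absurd (Finset.mem_univ _) h
  rw [Finset.sum_congr rfl fun w _ => h1 w]
  have h3 : ∑ w, ∑ y, (if G.Adj w y then (1 - θ) * (f y - f w) else 0) =
      ∑ w, ∑ y, (if G.Adj w y then (1 - θ) * (f w - f y) else 0) := by
    rw [Finset.sum_comm]
    refine Finset.sum_congr rfl fun w _ => Finset.sum_congr rfl fun y _ => ?_
    simp only [G.adj_comm y w]
  have h4 : ∑ w, ∑ y, (if G.Adj w y then (1 - θ) * (f w - f y) else 0) =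
      -∑ w, ∑ y, (if G.Adj w y then (1 - θ) * (f y - f w) else 0) := by
    rw [← Finset.sum_neg_distrib]
    refine Finset.sum_congr rfl fun w _ => ?_
    rw [← Finset.sum_neg_distrib]
    refine Finset.sum_congr rfl fun y _ => ?_
    split_ifs
    · ring
    · simp
  linarith

theorem cnt_ (h : MK) (h1 : S_IN) (h2 : S_TOT) : S_CNT := by
  intro V _ _ G q θ Δ hq ht0 ht1 hd hD a b v t ht
  have hr : ∀ e, 0 ≤ srate G q θ e := by
    intro e
    rcases e with e | w
    · exact (h2 V G q θ hq ht0 ht1 hd).1 e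
    · exact (h2 V G q θ hq ht0 ht1 hd).1 (Sum.inr w)
  set F : V → ℝ := fun u => if u = v then 1 else 0 with hF
  have hint : ∀ w, sx G q θ a b t (fun p => if p.1 = v then 1 else 0) (st w a) =
      sg (srate G q θ) (mv (V := V) (q := q)) t F w := by
    intro w
    exact h1 (V × Mp V q) V (((V × Fin q) ⊕ (V × V)) ⊕ (V × V)) (srate G q θ)
      (sm (V := V) a b) (mv (V := V) (q := q)) Prod.fst (fun e x => sm_fst a b e x) F (st w a) t
  rw [Finset.sum_congr rfl fun w _ => hint w]
  have hnn : ∀ w, 0 ≤ sg (srate G q θ) (mv (V := V) (q := q)) t F w := by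
    intro w
    have := h.mono V (((V × Fin q) ⊕ (V × V)) ⊕ (V × V)) (srate G q θ) (mv (V := V) (q := q))
      (fun _ => 0) F w t hr ht (fun y => by
        simp only [hF]
        split_ifs <;> norm_num)
    rw [h.cst] at this
    exact this
  have hU : ∀ s : ℝ, ∑ w, (dg G w : ℝ) * sg (srate G q θ) (mv (V := V) (q := q)) s F w =
      (dg G v : ℝ) := by
    have hder : ∀ s : ℝ, HasDerivAt (fun s : ℝ =>
        ∑ w, (dg G w : ℝ) * sg (srate G q θ) (mv (V := V) (q := q)) s F w) 0 s := by
      intro s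
      have h5 : HasDerivAt (fun s : ℝ =>
          ∑ w, (dg G w : ℝ) * sg (srate G q θ) (mv (V := V) (q := q)) s F w)
          (∑ w, (dg G w : ℝ) * sg (srate G q θ) (mv (V := V) (q := q)) s
            (gf (srate G q θ) (mv (V := V) (q := q)) F) w) s := by
        refine HasDerivAt.fun_sum fun w _ => ?_
        exact (h.deriv V (((V × Fin q) ⊕ (V × V)) ⊕ (V × V)) (srate G q θ)
          (mv (V := V) (q := q)) F w s).const_mul _
      rw [h.comm] at h5
      rwa [drift G q θ hd] at h5
    intro s
    have h6 := is_const_of_deriv_eq_zero (fun s => (hder s).differentiableAt)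
      (fun s => (hder s).deriv) s 0
    rw [h6, h.zero]
    simp [hF]
  calc ∑ w, sg (srate G q θ) (mv (V := V) (q := q)) t F w
      ≤ ∑ w, (dg G w : ℝ) * sg (srate G q θ) (mv (V := V) (q := q)) t F w := by
        refine Finset.sum_le_sum fun w _ => ?_
        have hw : (1 : ℝ) ≤ dg G w := by exact_mod_cast hd w
        nlinarith [hnn w]
    _ = (dg G v : ℝ) := hU t
    _ ≤ Δ := by exact_mod_cast hD v

end Pool.Agent.W597.NWC
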